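import Pool.Agent.Helper95.Lin.GoalsH

/-! # Integration by parts for the Levi form -/

open Complex Metric Set Filter Topology MeasureTheory
open scoped ContDiff ComplexConjugate ComplexOrder

namespace Pool.Agent.Helper70.Lin

open Pool.Agent.Helper95.Lin

/-- A product of a test function and a smooth function on `M` is a test function. -/
theorem testF_mul {n : ℕ} {M : Set (Cn n)} (hM : IsOpen M) {φ g : Cn n → ℝ} (hφ : TestF M φ)
    (hg : ContDiffOn ℝ ∞ g M) : TestF M (fun x => φ x * g x) := by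
  obtain ⟨h1, h2, h3⟩ := hφ
  have hsub : tsupport (fun x => φ x * g x) ⊆ tsupport φ := by
    apply closure_mono
    intro x hx
    simp only [Function.mem_support] at hx ⊢
    intro h
    exact hx (by simp [h])
  refine ⟨?_, ?_, hsub.trans h3⟩
  · rw [contDiff_iff_contDiffAt]
    intro x
    by_cases hx : x ∈ tsupport φ
    · exact h1.contDiffAt.mul (hg.contDiffAt (hM.mem_nhds (h3 hx)))
    · have h0 : φ =ᶠ[𝓝 x] 0 := notMem_tsupport_iff_eventuallyEq.1 hx
      have : (fun x => φ x * g x) =ᶠ[𝓝 x] fun _ => 0 := by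
        filter_upwards [h0] with y hy
        simp [hy]
      exact contDiffAt_const.congr_of_eventuallyEq this
  · exact h2.mono' (subset_closure.trans hsub)

/-- The integral of a derivative of a test function vanishes. -/
theorem integral_fderiv_testF {n : ℕ} {M : Set (Cn n)} {u : Cn n → ℝ} (hu : TestF M u)
    (e : Cn n) : ∫ x, fderiv ℝ u x e = 0 := by
  obtain ⟨h1, h2, -⟩ := hu
  have hd : Continuous (fun x => fderiv ℝ u x e) :=
    (h1.continuous_fderiv (by simp)).clm_apply continuous_const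
  have hc : HasCompactSupport (fun x => fderiv ℝ u x e) := h2.fderiv_apply (𝕜 := ℝ) e
  have := integral_mul_fderiv_eq_neg_fderiv_mul_of_integrable (𝕜 := ℝ) (μ := (volume : Measure (Cn n)))
    (f := fun _ => (1 : ℝ)) (g := u) (v := e) (by simp) (by
      simpa using hd.integrable_of_hasCompactSupport hc) (by
      simpa using h1.continuous.integrable_of_hasCompactSupport h2) (by fun_prop)
      (fun x _ => (h1.differentiable (by simp)) x)
  simpa using this

/-- The directional derivative of a test function is a test function. -/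
theorem testF_fderiv {n : ℕ} {M : Set (Cn n)} {u : Cn n → ℝ} (hu : TestF M u)
    (e : Cn n) : TestF M (fun x => fderiv ℝ u x e) := by
  obtain ⟨h1, h2, h3⟩ := hu
  refine ⟨(h1.fderiv_right (m := ∞) (by simp)).clm_apply contDiff_const,
    h2.fderiv_apply (𝕜 := ℝ) e, ?_⟩
  exact (tsupport_fderiv_apply_subset (𝕜 := ℝ) e).trans h3

theorem contDiffOn_fderiv {n : ℕ} {M : Set (Cn n)} (hM : IsOpen M) {ψ : Cn n → ℝ}
    (hψ : ContDiffOn ℝ ∞ ψ M) (e : Cn n) : ContDiffOn ℝ ∞ (fun x => fderiv ℝ ψ x e) M :=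
  (hψ.fderiv_of_isOpen (m := ∞) hM (by simp)).clm_apply contDiffOn_const

/-- Integration by parts. -/
theorem ibp1 {n : ℕ} {M : Set (Cn n)} (hM : IsOpen M) {φ ψ : Cn n → ℝ} (hφ : TestF M φ)
    (hψ : ContDiffOn ℝ ∞ ψ M) (e : Cn n) :
    ∫ x in M, ψ x * fderiv ℝ φ x e = - ∫ x in M, φ x * fderiv ℝ ψ x e := by
  have hP := testF_mul hM hφ hψ
  have h0 := integral_fderiv_testF hP e
  have hP1 := testF_mul hM (testF_fderiv hφ e) hψ
  have hP2 := testF_mul hM hφ (contDiffOn_fderiv hM hψ e)
  have hres : ∀ u : Cn n → ℝ, TestF M u → ∫ x in M, u x = ∫ x, u x := by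
    intro u hu
    apply setIntegral_eq_integral_of_forall_compl_eq_zero
    intro x hx
    exact image_eq_zero_of_notMem_tsupport fun h => hx (hu.2.2 h)
  have hi1 : IntegrableOn (fun x => fderiv ℝ φ x e * ψ x) M :=
    (hP1.1.continuous.integrable_of_hasCompactSupport hP1.2.1).integrableOn
  have hi2 : IntegrableOn (fun x => φ x * fderiv ℝ ψ x e) M :=
    (hP2.1.continuous.integrable_of_hasCompactSupport hP2.2.1).integrableOn
  rw [← hres _ (testF_fderiv hP e)] at h0
  have h1 : ∫ x in M, fderiv ℝ (fun y => φ y * ψ y) x e =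
      ∫ x in M, (fderiv ℝ φ x e * ψ x + φ x * fderiv ℝ ψ x e) := by
    apply setIntegral_congr_fun hM.measurableSet
    intro x hx
    have hd1 : DifferentiableAt ℝ φ x := (hφ.1.differentiable (by simp)) x
    have hd2 : DifferentiableAt ℝ ψ x :=
      (hψ.differentiableOn (by simp)).differentiableAt (hM.mem_nhds hx)
    have := fderiv_fun_mul hd1 hd2
    simp only
    rw [this]
    simp only [add_apply, smul_apply, smul_eq_mul]
    ring
  rw [h1, integral_add hi1 hi2] at h0
  have h2 : ∫ x in M, ψ x * fderiv ℝ φ x e = ∫ x in M, fderiv ℝ φ x e * ψ x := by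
    congr 1
    ext x
    ring
  rw [h2]
  linarith

/-- Two integrations by parts. -/
theorem ibp2 {n : ℕ} {M : Set (Cn n)} (hM : IsOpen M) {φ ψ : Cn n → ℝ} (hφ : TestF M φ)
    (hψ : ContDiffOn ℝ ∞ ψ M) (e : Cn n) :
    ∫ x in M, ψ x * hess φ x e e = ∫ x in M, φ x * hess ψ x e e := by
  have h1 := ibp1 hM (testF_fderiv hφ e) hψ e
  have h2 := ibp1 hM hφ (contDiffOn_fderiv hM hψ e) e
  unfold hess
  rw [h1]
  have h3 : ∫ x in M, fderiv ℝ φ x e * fderiv ℝ ψ x e =
      ∫ x in M, fderiv ℝ ψ x e * fderiv ℝ φ x e := by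
    congr 1
    ext x
    ring
  rw [h3, h2, neg_neg]

theorem levibp : S_LEVIBP := by
  intro n M hM φ ψ hφ hψ e
  unfold lev
  have hi : ∀ v, IntegrableOn (fun x => ψ x * hess φ x v v) M := by
    intro v
    have hP := testF_mul hM (testF_fderiv (testF_fderiv hφ v) v) hψ
    refine ((hP.1.continuous.integrable_of_hasCompactSupport hP.2.1).integrableOn).congr_fun
      (fun x _ => ?_) hM.measurableSet
    simp only [hess]
    ring
  have hi' : ∀ v, IntegrableOn (fun x => φ x * hess ψ x v v) M := by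
    intro v
    have hP := testF_mul hM hφ (contDiffOn_fderiv hM (contDiffOn_fderiv hM hψ v) v)
    exact (hP.1.continuous.integrable_of_hasCompactSupport hP.2.1).integrableOn
  simp only [mul_add]
  rw [integral_add (hi e) (hi (I • e)), integral_add (hi' e) (hi' (I • e)), ibp2 hM hφ hψ e,
    ibp2 hM hφ hψ (I • e)]

end Pool.Agent.Helper70.Lin
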