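import Pool.Agent.Helper95.Lin.GoalsH
import Pool.Agent.Helper95.Lin.Basics

/-! # Change of variables -/

open Complex Metric Set Filter Topology MeasureTheory
open scoped ContDiff ComplexConjugate ComplexOrder

namespace Pool.Agent.Helper70.Lin

open Pool.Agent.Helper95.Lin

theorem chv : S_CHV := by
  intro n M Γ _ T h f γ
  have hd : ∀ x ∈ M, HasFDerivWithinAt (T γ) ((fderiv ℂ (T γ) x).restrictScalars ℝ) M x := by
    intro x hx
    exact (((h.holo γ).differentiableAt (h.isOpen.mem_nhds hx)).hasFDerivAt.restrictScalars
      ℝ).hasFDerivWithinAt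
  have h1 := integral_image_eq_integral_abs_det_fderiv_smul (volume : Measure (Cn n))
    h.isOpen.measurableSet hd (h.injOn γ) f
  rw [h.image γ] at h1
  rw [h1]
  refine setIntegral_congr_fun h.isOpen.measurableSet fun x _ => ?_
  simp only [Jac, smul_eq_mul, Pool.Agent.Helper36.Abund.det_restrictScalars_eq]
  rw [abs_of_nonneg (by positivity)]

end Pool.Agent.Helper70.Lin
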